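import Pool.Agent.Q66.SH.Stm

/-!
# Project SH (helper66), job BN: the norm of a block diagonal sum
-/

set_option autoImplicit false

namespace Pool.Agent.Q222.SH66

open Pool.Agent.Q66.SH

variable {H : Type} [NormedAddCommGroup H] [InnerProductSpace ℂ H] [CompleteSpace H]

theorem bn_ortho {Q : ℕ → (H →L[ℂ] H)} (hQ : OrthProj Q) {i j : ℕ} (hij : i ≠ j) (u v : H) :
    inner ℂ (Q i u) (Q j v) = 0 := by
  have h1 : inner ℂ (Q i u) (Q j v) = inner ℂ u (Q i (Q j v)) := by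
    conv_lhs => rw [← hQ.2.2 i]
    rw [ContinuousLinearMap.adjoint_inner_left]
  have h2 : Q i (Q j v) = (Q i * Q j) v := rfl
  rw [h1, h2, hQ.2.1 i j hij]
  simp

omit [CompleteSpace H] in
theorem bn_pyth (n : ℕ) (v : ℕ → H) (h : ∀ i < n, ∀ j < n, i ≠ j → inner ℂ (v i) (v j) = 0) :
    ‖∑ i ∈ Finset.range n, v i‖ ^ 2 = ∑ i ∈ Finset.range n, ‖v i‖ ^ 2 := by
  induction n with
  | zero => simp
  | succ n ih =>
    rw [Finset.sum_range_succ, Finset.sum_range_succ, ← ih (fun i hi j hj => h i (by omega) j (by omega))]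
    have h0 : inner ℂ (∑ i ∈ Finset.range n, v i) (v n) = 0 := by
      rw [sum_inner]
      exact Finset.sum_eq_zero fun i hi =>
        h i (by have := Finset.mem_range.1 hi; omega) n (by omega) (by have := Finset.mem_range.1 hi; omega)
    have := norm_add_sq_eq_norm_sq_add_norm_sq_of_inner_eq_zero (𝕜 := ℂ) _ _ h0
    rw [sq, sq, sq]
    exact this

theorem bn_bessel {Q : ℕ → (H →L[ℂ] H)} (hQ : OrthProj Q) (n : ℕ) (x : H) :
    ∑ i ∈ Finset.range n, ‖Q i x‖ ^ 2 ≤ ‖x‖ ^ 2 := by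
  set y := ∑ i ∈ Finset.range n, Q i x with hy
  have h1 : ‖y‖ ^ 2 = ∑ i ∈ Finset.range n, ‖Q i x‖ ^ 2 :=
    bn_pyth n (fun i => Q i x) (fun i _ j _ hij => bn_ortho hQ hij x x)
  have h2 : inner ℂ y x = ((‖y‖ ^ 2 : ℝ) : ℂ) := by
    rw [h1, hy, sum_inner]
    push_cast
    refine Finset.sum_congr rfl fun i _ => ?_
    have h3 : inner ℂ (Q i x) (Q i x) = inner ℂ (Q i x) x := by
      calc inner ℂ (Q i x) (Q i x)
          = inner ℂ (Q i x) (ContinuousLinearMap.adjoint (Q i) x) := by rw [hQ.2.2 i]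
        _ = inner ℂ (Q i (Q i x)) x := ContinuousLinearMap.adjoint_inner_right _ _ _
        _ = inner ℂ (Q i x) x := by
          have : Q i (Q i x) = (Q i * Q i) x := rfl
          rw [this, hQ.1 i]
    rw [← h3, inner_self_eq_norm_sq_to_K]
    rfl
  have h4 : ‖y‖ ^ 2 ≤ ‖y‖ * ‖x‖ := by
    have h5 := norm_inner_le_norm (𝕜 := ℂ) y x
    rw [h2, Complex.norm_real, Real.norm_of_nonneg (by positivity)] at h5
    exact h5
  rw [← h1]
  rcases eq_or_lt_of_le (norm_nonneg y) with h0 | h0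
  · rw [← h0]
    nlinarith [sq_nonneg ‖x‖]
  · have : ‖y‖ ≤ ‖x‖ := by nlinarith
    gcongr

theorem t_BN : S_BN := by
  intro H _ _ _ Q hQ T c n hc hT hTc
  refine ContinuousLinearMap.opNorm_le_bound _ hc fun x => ?_
  have h1 : ∀ j < n, T j x = Q j (T j (Q j x)) := by
    intro j hj
    conv_lhs => rw [hT j hj]
    rfl
  have h2 : ∀ j < n, T j x = T j (Q j x) := by
    intro j hj
    rw [h1 j hj]
    have : T j (Q j x) = Q j (T j (Q j (Q j x))) := by
      conv_lhs => rw [hT j hj]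
      rfl
    rw [this]
    have h3 : Q j (Q j x) = Q j x := by
      have : Q j (Q j x) = (Q j * Q j) x := rfl
      rw [this, hQ.1 j]
    rw [h3]
    have h4 : ∀ z, Q j (Q j z) = Q j z := by
      intro z
      have : Q j (Q j z) = (Q j * Q j) z := rfl
      rw [this, hQ.1 j]
    rw [h4]
  have h3 : ‖∑ j ∈ Finset.range n, T j x‖ ^ 2 = ∑ j ∈ Finset.range n, ‖T j x‖ ^ 2 := by
    apply bn_pyth
    intro i hi j hj hij
    rw [h1 i hi, h1 j hj]
    exact bn_ortho hQ hij _ _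
  have h4 : ∑ j ∈ Finset.range n, ‖T j x‖ ^ 2 ≤ (c * ‖x‖) ^ 2 := by
    calc ∑ j ∈ Finset.range n, ‖T j x‖ ^ 2
        ≤ ∑ j ∈ Finset.range n, c ^ 2 * ‖Q j x‖ ^ 2 := by
          refine Finset.sum_le_sum fun j hj => ?_
          have hj := Finset.mem_range.1 hj
          rw [h2 j hj, ← mul_pow]
          have h5 := (T j).le_opNorm (Q j x)
          have h6 : ‖T j‖ * ‖Q j x‖ ≤ c * ‖Q j x‖ := by
            have := hTc j hj
            gcongr
          exact pow_le_pow_left₀ (norm_nonneg _) (h5.trans h6) 2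
      _ = c ^ 2 * ∑ j ∈ Finset.range n, ‖Q j x‖ ^ 2 := by rw [Finset.mul_sum]
      _ ≤ c ^ 2 * ‖x‖ ^ 2 := by
          have := bn_bessel hQ n x
          gcongr
      _ = (c * ‖x‖) ^ 2 := by ring
  rw [← h3] at h4
  have h5 : ‖∑ j ∈ Finset.range n, T j x‖ ≤ c * ‖x‖ :=
    le_of_sq_le_sq h4 (by positivity)
  rw [ContinuousLinearMap.sum_apply]
  exact h5

end Pool.Agent.Q222.SH66
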